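import Pool.Agent.W719.BS.Stubs
import Pool.Agent.H756R3.J.Cont

/-! Continuity of the tangle operators. -/

set_option autoImplicit false

namespace Pool.Agent.W749.BS

open Matrix Finset Pool.Agent.H550R3.Jones Pool.Agent.W719.BS Pool.Agent.H756R3.J

theorem v0_ne (N : ℕ) : v0 N ≠ 0 := Complex.exp_ne_zero _

theorem br_v0_ne {N : ℕ} {k : ℕ} (hk : 0 < k) (hkN : k < N) : br (v0 N) k ≠ 0 := by
  have hN : (0 : ℝ) < N := by exact_mod_cast (by omega : 0 < N)
  have e1 : v0 N ^ (k : ℤ) = Complex.exp (((Real.pi * k / N : ℝ) : ℂ) * Complex.I) := by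
    unfold v0
    rw [← Complex.exp_int_mul]
    congr 1
    push_cast
    ring
  have e2 : v0 N ^ (-(k : ℤ)) = Complex.exp (-((Real.pi * k / N : ℝ) : ℂ) * Complex.I) := by
    unfold v0
    rw [← Complex.exp_int_mul]
    congr 1
    push_cast
    ring
  have h3 : br (v0 N) k = 2 * Complex.I * Complex.sin ((Real.pi * k / N : ℝ) : ℂ) := by
    unfold br
    rw [e1, e2, Complex.sin]
    have := Complex.I_sq
    linear_combination (Complex.exp (((Real.pi * k / N : ℝ) : ℂ) * Complex.I) -
      Complex.exp (-((Real.pi * k / N : ℝ) : ℂ) * Complex.I)) * this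
  rw [h3, ← Complex.ofReal_sin]
  have hs : Real.sin (Real.pi * k / N) ≠ 0 := by
    apply ne_of_gt
    apply Real.sin_pos_of_pos_of_lt_pi
    · have : (0 : ℝ) < k := by exact_mod_cast hk
      positivity
    · rw [div_lt_iff₀ hN]
      have : (k : ℝ) < N := by exact_mod_cast hkN
      exact mul_lt_mul_of_pos_left this Real.pi_pos
  exact mul_ne_zero (mul_ne_zero two_ne_zero Complex.I_ne_zero) (by exact_mod_cast hs)

theorem br_inv (v : ℂ) (k : ℤ) : br v⁻¹ k = -br v k := by
  unfold br
  rw [_root_.inv_zpow', _root_.inv_zpow', neg_neg]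
  ring

theorem cup_cont {N : ℕ} {v : ℂ} (hv : v ≠ 0) (j : ℕ) : ContinuousAt (fun v => cup N v j) v := by
  unfold cup
  exact (continuousAt_const.mul ((brf_cont hv _).mul (brf_cont hv _))).mul (zpow_cont hv _)

theorem cup_ne {N : ℕ} {v : ℂ} (hv : v ≠ 0) (hN : ∀ k : ℕ, 0 < k → k < N → br v k ≠ 0)
    {j : ℕ} (hj : j < N) : cup N v j ≠ 0 := by
  unfold cup
  refine mul_ne_zero (mul_ne_zero (pow_ne_zero _ (by norm_num)) (mul_ne_zero (brf_ne hN hj)
    (brf_ne hN (by omega)))) (zpow_ne_zero _ hv)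

/-- entrywise continuity of a product -/
theorem mul_cont {ι : Type} [Fintype ι] {A B : ℂ → Matrix ι ι ℂ} {v : ℂ}
    (hA : ∀ p q, ContinuousAt (fun v => A v p q) v) (hB : ∀ p q, ContinuousAt (fun v => B v p q) v)
    (p q : ι) : ContinuousAt (fun v => (A v * B v) p q) v := by
  simp only [Matrix.mul_apply]
  exact tendsto_finsetSum _ fun x _ => (hA p x).mul (hB x q)

theorem rot_cont {N : ℕ} {v : ℂ} (hv : v ≠ 0) (hN : ∀ k : ℕ, 0 < k → k < N → br v k ≠ 0)
    {A : ℂ → Matrix (Fin N × Fin N) (Fin N × Fin N) ℂ}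
    (hA : ∀ p q, ContinuousAt (fun v => A v p q) v) (p q : Fin N × Fin N) :
    ContinuousAt (fun v => rot N v (A v) p q) v := by
  unfold rot
  exact ((cup_cont hv _).div (cup_cont hv _) (cup_ne hv hN q.2.2)).mul (hA _ _)

theorem on12_cont {ι : Type} [Fintype ι] [DecidableEq ι] {A : ℂ → Matrix (ι × ι) (ι × ι) ℂ} {v : ℂ}
    (hA : ∀ p q, ContinuousAt (fun v => A v p q) v) (p q : ι × (ι × ι)) :
    ContinuousAt (fun v => on12 (A v) p q) v := by
  unfold on12
  split_ifs
  · exact hA _ _
  · exact continuousAt_const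

theorem on23_cont {ι : Type} [Fintype ι] [DecidableEq ι] {A : ℂ → Matrix (ι × ι) (ι × ι) ℂ} {v : ℂ}
    (hA : ∀ p q, ContinuousAt (fun v => A v p q) v) (p q : ι × (ι × ι)) :
    ContinuousAt (fun v => on23 (A v) p q) v := by
  unfold on23
  split_ifs
  · exact hA _ _
  · exact continuousAt_const

theorem belt_cont {N : ℕ} {v : ℂ} (hv : v ≠ 0) (hN : ∀ k : ℕ, 0 < k → k < N → br v k ≠ 0)
    (p q : Fin N × Fin N) : ContinuousAt (fun v => belt N v p q) v := by
  unfold belt
  refine tendsto_finsetSum _ fun x _ => ?_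
  refine ContinuousAt.mul ?_ ?_
  · unfold Pool.Agent.W719.BS.kw
    exact zpow_cont hv _
  · have hP := crossP_cont hv hN
    exact mul_cont (on23_cont hP) (mul_cont (on12_cont hP) (mul_cont (on12_cont hP)
      (on23_cont hP))) _ _

theorem op_cont {N : ℕ} {v : ℂ} (hv : v ≠ 0) (hN : ∀ k : ℕ, 0 < k → k < N → br v k ≠ 0)
    (a : Piece) (p q : Fin N × Fin N) : ContinuousAt (fun v => op N v a p q) v := by
  cases a with
  | clasp s =>
    cases s with
    | true => exact rot_cont hv hN (mul_cont (crossP_cont hv hN) (crossP_cont hv hN)) p q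
    | false => exact rot_cont hv hN (mul_cont (crossN_cont hv hN) (crossN_cont hv hN)) p q
  | twist s =>
    cases s with
    | true => exact crossP_cont hv hN p q
    | false => exact crossN_cont hv hN p q

theorem prod_cont {N : ℕ} {v : ℂ} (hv : v ≠ 0) (hN : ∀ k : ℕ, 0 < k → k < N → br v k ≠ 0)
    (w : List Piece) : ∀ p q : Fin N × Fin N,
    ContinuousAt (fun v => (w.map (op N v)).prod p q) v := by
  induction w with
  | nil =>
    intro p q
    simp only [List.map_nil, List.prod_nil]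
    exact continuousAt_const
  | cons a w ih =>
    intro p q
    simp only [List.map_cons, List.prod_cons]
    exact mul_cont (op_cont hv hN a) ih p q

theorem JL_cont {N : ℕ} {v : ℂ} (hv : v ≠ 0) (hN : ∀ k : ℕ, 0 < k → k < N → br v k ≠ 0)
    (w : List Piece) : ContinuousAt (JL w N) v := by
  unfold JL
  by_cases h : 0 < N
  · simp only [h, dite_true]
    unfold ptr
    refine tendsto_finsetSum _ fun x _ => ?_
    refine ContinuousAt.mul ?_ ?_
    · unfold Pool.Agent.W719.BS.kw
      exact zpow_cont hv _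
    · exact mul_cont (belt_cont hv hN) (prod_cont hv hN w) _ _
  · simp only [h, dite_false]
    exact continuousAt_const

theorem kapP_cont {N : ℕ} {v : ℂ} (hv : v ≠ 0) (hN : ∀ k : ℕ, 0 < k → k < N → br v k ≠ 0)
    {c : ℕ} (hc : c < N) : ContinuousAt (fun v => kapP N v c) v := by
  unfold kapP
  refine ((continuousAt_const.mul (zpow_cont hv _)).mul (brf_cont hv _)).mul ?_
  refine tendsto_finsetSum _ fun m hm => ?_
  have hm' : m < N - c := Finset.mem_range.1 hm
  exact (((brf_cont hv _).div ((brf_cont hv _).mul (brf_cont hv _))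
    (mul_ne_zero (brf_ne hN hc) (brf_ne hN (by omega)))).mul
    ((brf_cont hv _).div ((brf_cont hv _).mul (brf_cont hv _))
    (mul_ne_zero (brf_ne hN hc) (brf_ne hN (by omega))))).mul (zpow_cont hv _)

theorem eig_cont {N : ℕ} {v : ℂ} (hv : v ≠ 0) (hN : ∀ k : ℕ, 0 < k → k < N → br v k ≠ 0)
    {c : ℕ} (hc : c < N) (p : Piece) : ContinuousAt (fun v => eig N v c p) v := by
  cases p with
  | clasp s =>
    cases s with
    | true => exact kapP_cont hv hN hc
    | false =>
      have h1 : ContinuousAt (fun v => kapP N v c) v⁻¹ := by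
        apply kapP_cont (inv_ne_zero hv) _ hc
        intro k hk hkN
        rw [br_inv]
        exact neg_ne_zero.2 (hN k hk hkN)
      exact ContinuousAt.comp (f := fun v : ℂ => v⁻¹) h1 (continuousAt_inv₀ hv)
  | twist s =>
    cases s with
    | true => exact continuousAt_const.mul (zpow_cont hv _)
    | false => exact continuousAt_const.mul (zpow_cont hv _)

theorem s_CONT : S_CONT := by
  intro w N _
  have hN : ∀ k : ℕ, 0 < k → k < N → br (v0 N) k ≠ 0 := fun k h1 h2 => br_v0_ne h1 h2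
  exact ⟨JL_cont (v0_ne N) hN w, fun c hc p => eig_cont (v0_ne N) hN hc p⟩

end Pool.Agent.W749.BS
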